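import Mathlib
import Pool.Agent.MWL.Stmts

set_option autoImplicit false

namespace Pool.Agent.MWL.H95

open Pool.Agent.MVO

theorem psh_rev (k k' : ℕ) (f : ℕ → ℕ) (hf : BMap k k' f) (a : ℕ → ℕ) (j : ℕ) (hj : j ≤ k') :
    psh k (fun j => k' - f (k - j)) (fun t => a (k - t)) j = psh k f a (k' - j) := by
  unfold psh
  rw [← Finset.sum_range_reflect (fun i => if f i = k' - j then a i else 0) (k + 1)]
  refine Finset.sum_congr rfl fun i _ => ?_
  have h0 : k + 1 - 1 - i = k - i := by omega
  rw [h0]
  have h1 := hf.le (k - i) (Nat.sub_le _ _)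
  by_cases h : f (k - i) = k' - j
  · have h2 : k' - f (k - i) = j := by omega
    rw [if_pos h, if_pos h2]
  · have h2 : ¬ k' - f (k - i) = j := by omega
    rw [if_neg h, if_neg h2]

theorem rev : RevStmt := by
  intro R
  refine ⟨{ R := fun k a b => R.R k (fun j => a (k - j)) (fun j => b (k - j))
            refl := fun k a => R.refl _ _
            symm := fun h => R.symm h
            trans := fun h h' => R.trans h h'
            ext := ?_
            add := ?_
            push := ?_ }, fun k a b => Iff.rfl⟩
  · intro k a a' b b' ha hb h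
    exact R.ext (fun j _ => ha _ (Nat.sub_le _ _)) (fun j _ => hb _ (Nat.sub_le _ _)) h
  · intro k a b d h
    exact R.add (fun j => d (k - j)) h
  · intro k a b k' f hf h
    have hf' : BMap k k' (fun j => k' - f (k - j)) := by
      refine ⟨fun i j hij hj => ?_, fun i _ => Nat.sub_le _ _⟩
      have h1 := hf.mono (k - j) (k - i) (by omega) (Nat.sub_le _ _)
      show k' - f (k - i) ≤ k' - f (k - j)
      omega
    exact R.ext (fun j hj => psh_rev k k' f hf a j hj) (fun j hj => psh_rev k k' f hf b j hj)
      (R.push k' _ hf' h)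

end Pool.Agent.MWL.H95
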